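import Pool.Agent.Helper89.MG.Mgf
import Pool.Agent.Helper2.OC.M_KRO
import Pool.Agent.Helper45.AL.M_FCA

/-!
# MP_2b6189_al, any parity: the congruence for a vector fixed by `SL(2, Z/p^a)`, coprime objects of the principal block
-/

set_option autoImplicit false

namespace Pool.Agent.Helper89.MG

open Matrix ComplexConjugate Pool.Agent.Helper94.YG
open Pool.Agent.Helper94.YF hiding StORB
open Pool.Agent.Helper89.OS Pool.Agent.Helper89.OC Pool.Agent.Helper79.AL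

section

variable {I : Type} [Fintype I] [DecidableEq I]

/-- The vector `e_v + c e_o` is fixed by `S_b`. -/
def Fix (Z : CentreData I) (b : ZMod Z.L) (v : I) (c : ℤ) : Prop :=
  ∀ i, Z.rho (s2 b) i v + c * Z.rho (s2 b) i Z.o =
    (if i = v then 1 else 0) + c * (if i = Z.o then 1 else 0)

theorem cint (k : ℤ) : IsIntegral ℤ (k : ℂ) := by
  have := isIntegral_algebraMap (R := ℤ) (A := ℂ) (x := k)
  simpa using this

theorem nint (k : ℕ) : IsIntegral ℤ (k : ℂ) := by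
  have := cint (k : ℤ)
  simpa using this

/-- **The congruence modulo `p`.** -/
theorem cg_fix (Z : CentreData I) (b : ZMod Z.L) (hb : b * b = b) (p m : ℕ)
    (hn : Z.n = p * m) (z : I → ℤ) (hz : ∀ i, (z i : ℂ) = (m : ℂ) * Z.rho (s2 (1 - b)) i Z.o)
    (v : I) (c : ℤ) (hfix : Fix Z b v c) (w : I) :
    ∃ β : ℂ, IsIntegral ℤ β ∧ Sf Z v w - (Z.d v : ℂ) * Z.d w = (p : ℂ) * β := by
  have A := gla Z
  have hE := Helper33.OS.hENT Helper36.YF.hFUS Helper88.YF.hDUA I Z.toCentreRep (1 - b)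
  have hzi : ∀ i k, IsIntegral ℤ ((m : ℂ) * Z.rho (s2 (1 - b)) i k) :=
    fun i k => (hE.2 m z hz i k).1
  have hS := (Helper45.AL.hFCA I Z).Sm_eq b hb
  have key : ∀ l, Sf Z l v + c * Z.d l = (p : ℂ) * ((m : ℂ) * Z.rho (s2 (1 - b)) l v +
      c * ((m : ℂ) * Z.rho (s2 (1 - b)) l Z.o)) := by
    intro l
    have h1 : ∀ k, Sf Z l k = (p : ℂ) * m * ∑ j, Z.rho (s2 (1 - b)) l j * Z.rho (s2 b) j k := by
      intro k
      unfold Sf
      rw [hS, Matrix.mul_apply, hn]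
      push_cast
      ring
    have h2 : Sf Z l v + c * Sf Z l Z.o = (p : ℂ) * m * ∑ j, Z.rho (s2 (1 - b)) l j *
        (Z.rho (s2 b) j v + c * Z.rho (s2 b) j Z.o) := by
      rw [h1, h1]
      have h3 : ∑ j, Z.rho (s2 (1 - b)) l j * (Z.rho (s2 b) j v + c * Z.rho (s2 b) j Z.o) =
          ∑ j, Z.rho (s2 (1 - b)) l j * Z.rho (s2 b) j v +
          c * ∑ j, Z.rho (s2 (1 - b)) l j * Z.rho (s2 b) j Z.o := by
        rw [Finset.mul_sum, ← Finset.sum_add_distrib]
        exact Finset.sum_congr rfl fun j _ => by ring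
      rw [h3]
      ring
    rw [← A.Sf_o l, h2]
    have h4 : ∑ j, Z.rho (s2 (1 - b)) l j * (Z.rho (s2 b) j v + c * Z.rho (s2 b) j Z.o) =
        Z.rho (s2 (1 - b)) l v + c * Z.rho (s2 (1 - b)) l Z.o := by
      rw [Finset.sum_congr rfl fun j _ => by rw [hfix j]]
      simp only [mul_add, Finset.sum_add_distrib, mul_ite, mul_one, mul_zero,
        Finset.sum_ite_eq', Finset.mem_univ, if_true]
      ring
    rw [h4]
    ring
  have h1 := key w
  have h2 := key Z.o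
  have h3 : Sf Z Z.o v = Z.d v := by rw [A.Sf_symm, A.Sf_o]
  rw [h3, Z.d_o] at h2
  refine ⟨(m : ℂ) * Z.rho (s2 (1 - b)) w v + c * ((m : ℂ) * Z.rho (s2 (1 - b)) w Z.o) -
    Z.d w * ((m : ℂ) * Z.rho (s2 (1 - b)) Z.o v +
      c * ((m : ℂ) * Z.rho (s2 (1 - b)) Z.o Z.o)), ?_, ?_⟩
  · exact ((hzi _ _).add ((cint _).mul (hzi _ _))).sub
      ((nint _).mul ((hzi _ _).add ((cint _).mul (hzi _ _))))
  · rw [A.Sf_symm v w]
    push_cast at h2
    linear_combination h1 - (Z.d w : ℂ) * h2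

/-- Objects whose greatest common divisor is small centralise each other. -/
theorem gcd_cen (Z : CentreData I) (b : ZMod Z.L) (hb : b * b = b) (p m : ℕ) (hp : p.Prime)
    (hn : Z.n = p * m) (z : I → ℤ) (hz : ∀ i, (z i : ℂ) = (m : ℂ) * Z.rho (s2 (1 - b)) i Z.o)
    (v : I) (c : ℤ) (hfix : Fix Z b v c) (w : I) (hpv : ¬ p ∣ Z.d v) (hpw : ¬ p ∣ Z.d w)
    (hg : 2 * Nat.gcd (Z.d v) (Z.d w) < p) : Sf Z v w = (Z.d v : ℂ) * Z.d w := by
  have A := gla Z
  obtain ⟨β, hβi, hS⟩ := cg_fix Z b hb p m hn z hz v c hfix w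
  have hdv := dC Z v
  have hdw := dC Z w
  have hpc : (p : ℂ) ≠ 0 := Nat.cast_ne_zero.2 hp.ne_zero
  have hcv : Sf Z v w = (Z.d v : ℂ) * Cchi Z v w := A.Sf_chi v w
  have hcw : Sf Z v w = (Z.d w : ℂ) * Cchi Z w v := by
    rw [A.Sf_symm]; exact A.Sf_chi w v
  set g : ℕ := Nat.gcd (Z.d v) (Z.d w) with hgd
  have hb1 : (Z.d v : ℤ) * Nat.gcdA (Z.d v) (Z.d w) + (Z.d w : ℤ) * Nat.gcdB (Z.d v) (Z.d w)
      = g := (Nat.gcd_eq_gcd_ab (Z.d v) (Z.d w)).symm
  have hb2 : (Z.d v : ℂ) * (Nat.gcdA (Z.d v) (Z.d w) : ℂ) +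
      (Z.d w : ℂ) * (Nat.gcdB (Z.d v) (Z.d w) : ℂ) = g := by exact_mod_cast hb1
  -- `α = S / lcm`
  set α : ℂ := (g : ℂ) * Cchi Z v w / Z.d w with hα
  have hα1 : α * (Z.d v * Z.d w) = g * Sf Z v w := by
    rw [hα, hcv]; field_simp
  have hα2 : α = (Nat.gcdA (Z.d v) (Z.d w) : ℂ) * Cchi Z w v +
      (Nat.gcdB (Z.d v) (Z.d w) : ℂ) * Cchi Z v w := by
    apply mul_right_cancel₀ (mul_ne_zero hdv hdw)
    rw [hα1]
    have e1 : (Z.d v : ℂ) * Cchi Z v w = (Z.d w : ℂ) * Cchi Z w v := by rw [← hcv, hcw]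
    rw [hcv]
    linear_combination (-(Z.d v : ℂ) * Cchi Z v w) * hb2 +
      (Z.d v : ℂ) * (Nat.gcdA (Z.d v) (Z.d w) : ℂ) * e1
  have hαi : IsIntegral ℤ α := by
    rw [hα2]
    exact ((cint _).mul (A.chi_int _ _)).add ((cint _).mul (A.chi_int _ _))
  have hcopp : Nat.Coprime p (Z.d v * Z.d w) :=
    Nat.Coprime.mul_right ((hp.coprime_iff_not_dvd).2 hpv) ((hp.coprime_iff_not_dvd).2 hpw)
  set γ : ℂ := (α - g) / p with hγ
  have hαβ : (α - g) * (Z.d v * Z.d w) = p * (g * β) := by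
    have : (α - g) * (Z.d v * Z.d w) = g * (Sf Z v w - Z.d v * Z.d w) := by
      rw [sub_mul, hα1]; ring
    rw [this, hS]
    ring
  have hγi : IsIntegral ℤ γ := by
    have hb' : (p : ℤ) * Nat.gcdA p (Z.d v * Z.d w) +
        ((Z.d v * Z.d w : ℕ) : ℤ) * Nat.gcdB p (Z.d v * Z.d w) = 1 := by
      have := Nat.gcd_eq_gcd_ab p (Z.d v * Z.d w)
      rw [hcopp] at this
      exact_mod_cast this.symm
    have hbc : (p : ℂ) * (Nat.gcdA p (Z.d v * Z.d w) : ℂ) +
        ((Z.d v : ℂ) * Z.d w) * (Nat.gcdB p (Z.d v * Z.d w) : ℂ) = 1 := by exact_mod_cast hb'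
    have : γ = (Nat.gcdA p (Z.d v * Z.d w) : ℂ) * (α - g) +
        (Nat.gcdB p (Z.d v * Z.d w) : ℂ) * (g * β) := by
      rw [hγ, div_eq_iff hpc]
      linear_combination (-(α - g)) * hbc + (Nat.gcdB p (Z.d v * Z.d w) : ℂ) * hαβ
    rw [this]
    exact ((cint _).mul (hαi.sub (nint _))).add ((cint _).mul ((nint _).mul hβi))
  have hgpos : 0 < g := Nat.gcd_pos_of_pos_left _ (Z.d_pos v)
  have hγ0 : γ = 0 := by
    apply Helper2.OC.hKRO γ hγi
    intro σ
    have hσp : σ (p : ℂ) = p := map_natCast σ p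
    have hσα : ‖σ α‖ ≤ g := by
      have h5 : σ α = (g : ℂ) * σ (Cchi Z v w) / Z.d w := by
        rw [hα, map_div₀, map_mul, map_natCast, map_natCast]
      rw [h5, norm_div, norm_mul, Complex.norm_natCast, Complex.norm_natCast]
      have hpos : (0 : ℝ) < Z.d w := by exact_mod_cast Z.d_pos w
      rw [div_le_iff₀ hpos]
      exact mul_le_mul_of_nonneg_left (A.bound σ v w) (Nat.cast_nonneg _)
    have h6 : σ γ = (σ α - g) / p := by
      rw [hγ, map_div₀, map_sub, map_natCast, hσp]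
    rw [h6, norm_div, Complex.norm_natCast]
    have hpp : (0 : ℝ) < p := by exact_mod_cast hp.pos
    rw [div_lt_one hpp]
    calc ‖σ α - g‖ ≤ ‖σ α‖ + ‖(g : ℂ)‖ := norm_sub_le _ _
      _ ≤ g + g := by rw [Complex.norm_natCast]; linarith
      _ < (p : ℝ) := by
        have : ((2 * g : ℕ) : ℝ) < p := by exact_mod_cast hg
        push_cast at this
        linarith
  have hα3 : α = g := by
    have := hγ0
    rw [hγ, div_eq_zero_iff] at this
    rcases this with h | h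
    · exact sub_eq_zero.1 h
    · exact absurd h hpc
  have hgC : (g : ℂ) ≠ 0 := Nat.cast_ne_zero.2 hgpos.ne'
  apply mul_left_cancel₀ hgC
  rw [← hα1, hα3]

/-- **The contradiction**: a fixed vector `e_v + c e_o` and an object `w` of the principal block which centralises `v`. -/
theorem fix_end (Z : CentreData I) (p a : ℕ) (b : ZMod Z.L) (hI : Idp Z.L p a b) (hp : Odd p)
    (hno : ¬ ∃ D : I → Prop, TanSet Z D) (v w : I) (c : ℤ) (hc : c ≠ 0) (hfix : Fix Z b v c)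
    (hvo : v ≠ Z.o) (hwo : w ≠ Z.o) (hwv : w ≠ v) (htv : Z.tw b v = 1) (htw : Z.tw b w = 1)
    (yo : Z.rho (s2 b) Z.o Z.o ≠ 0) (yv : Z.rho (s2 b) v Z.o ≠ 0)
    (yw : Z.rho (s2 b) w Z.o ≠ 0) (hcen : Sf Z v w = (Z.d v : ℂ) * Z.d w) : False := by
  obtain ⟨f1, f2, f3, f4, f5, f6, f7, f8, f9, f10, f11⟩ :=
    Helper36.YF.hFUS Helper88.YF.hDUA I Z.toCentreRep
  have hcC : (c : ℂ) ≠ 0 := Int.cast_ne_zero.2 hc
  have hs : ∀ i k, Z.tw b i = 1 → Z.tw b k = 1 →
      Z.rho (s2 b) i k = Z.rho (Lo b) i k := by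
    intro i k hi hk
    have h2 : Z.rho (s2 b) = Matrix.diagonal (Z.tw (-b)) * Z.rho (Lo b) *
        Matrix.diagonal (Z.tw (-b)) := by
      rw [← f1, ← map_mul, ← map_mul]
      rfl
    have h3 : ∀ l, Z.tw b l = 1 → Z.tw (-b) l = 1 := by
      intro l hl
      have h4 : Z.tw b l * Z.tw (-b) l = 1 := by rw [← f3, add_neg_cancel, f4]
      rw [hl, one_mul] at h4
      exact h4
    rw [h2, Matrix.mul_diagonal, Matrix.diagonal_mul, h3 i hi, h3 k hk]
    ring
  have hto : Z.tw b Z.o = 1 := f6 b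
  have hsym := (Helper45.AL.hFCA I Z).sym b
  have e1 := hfix w
  rw [if_neg hwv, if_neg hwo] at e1
  have e2 := hfix Z.o
  rw [if_neg (Ne.symm hvo), if_pos rfl] at e2
  have hvw : Z.rho (s2 b) v w = -(c * Z.rho (s2 b) w Z.o) := by
    rw [hsym v w]
    linear_combination e1
  have hm := mgf Z b hI.idem (p ^ a) (hp.pow) hI.ann hno v w hcen
    (by rw [← hs v Z.o htv hto]; exact yv) (by rw [← hs w Z.o htw hto]; exact yw)
    (by rw [← hs Z.o Z.o hto hto]; exact yo)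
    (by
      rw [← hs v w htv htw, hvw]
      exact neg_ne_zero.2 (mul_ne_zero hcC yw))
  rw [← hs v w htv htw, ← hs v Z.o htv hto, ← hs w Z.o htw hto, ← hs Z.o Z.o hto hto, hvw,
    hsym v Z.o] at hm
  have h5 : Z.rho (s2 b) Z.o v = c - c * Z.rho (s2 b) Z.o Z.o := by linear_combination e2
  rw [h5] at hm
  have h6 : (c : ℂ) * Z.rho (s2 b) w Z.o = 0 := by linear_combination -hm
  exact mul_ne_zero hcC yw h6

/-- An invertible object of twist `1` generates a Tannakian subset (any parity). -/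
theorem boson (Z : CentreData I) (x : I) (hx : x ≠ Z.o) (hd : Z.d x = 1) (hth : Z.th x = 1) :
    ∃ D : I → Prop, TanSet Z D := by
  by_contra hno
  have A := gla Z
  have B := glb Z
  -- `x` centralises itself
  have h1 : Sf Z x x = 1 := by
    have h2 := (glc Z).twist x x
    rw [hth, mul_one, mul_one] at h2
    rw [h2, Finset.sum_eq_single Z.o]
    · rw [B.N_o x x, if_pos rfl, Z.th_o, Z.d_o]
      simp
    · intro l _ hl
      have h3 := B.dim x (Z.st x)
      rw [dst, hd, ← Finset.add_sum_erase _ _ (Finset.mem_univ Z.o)] at h3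
      have h4 := B.N_o x x
      rw [if_pos rfl] at h4
      rw [h4, Z.d_o] at h3
      have h5 : Z.N x (Z.st x) l * Z.d l ≤
          ∑ y ∈ Finset.univ.erase Z.o, Z.N x (Z.st x) y * Z.d y :=
        Finset.single_le_sum (f := fun y => Z.N x (Z.st x) y * Z.d y)
          (fun _ _ => Nat.zero_le _) (Finset.mem_erase.2 ⟨hl, Finset.mem_univ _⟩)
      have h6 : Z.N x (Z.st x) l * Z.d l = 0 := by omega
      rcases Nat.mul_eq_zero.1 h6 with h7 | h7
      · rw [h7]; simp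
      · exact absurd h7 (Z.d_pos l).ne'
    · intro h
      exact absurd (Finset.mem_univ _) h
  have hD := ceFS Z (fun y => y = x)
  have pe := pe_of Z hno _ hD
  apply hx
  apply pe.th1 x _ hth
  have hx1 : Ce Z (fun y => y = x) x := by
    intro i hi
    rw [hi, h1, hd]
    simp
  refine ⟨hx1, ?_⟩
  intro i hi
  have h2 := hi x rfl
  rw [A.Sf_symm, h2]
  ring

end

end Pool.Agent.Helper89.MG
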