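import Pool.Agent.Helper71.AL.M_SPL
import Pool.Agent.Helper2.AL.M_DIM
import Pool.Agent.Helper18.AL.M_CEF
import Pool.Agent.Helper79.AL.M_YPR
import Pool.Agent.Helper36.OC.M_GLA
import Pool.Agent.Helper1.OC.M_GLB
import Pool.Agent.Helper38.OC.M_GLC

/-!
# MP_2b6189_al, any parity: centralisers, invertible objects
-/

set_option autoImplicit false

namespace Pool.Agent.Helper89.MG

open Matrix ComplexConjugate Pool.Agent.Helper94.YG
open Pool.Agent.Helper94.YF hiding StORB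
open Pool.Agent.Helper89.OS Pool.Agent.Helper89.OC Pool.Agent.Helper79.AL

section

variable {I : Type} [Fintype I] [DecidableEq I]

theorem gla (Z : CentreData I) : GLA Z := Helper36.OC.hGLA I Z
theorem glb (Z : CentreData I) : GLB Z := Helper1.OC.hGLB I Z
theorem glc (Z : CentreData I) : GLC Z := Helper38.OC.hGLC Helper36.OC.hGLA Helper1.OC.hGLB I Z

theorem ceFS (Z : CentreData I) (E : I → Prop) : FS Z (Ce Z E) :=
  (Helper18.AL.hCEF Helper36.OC.hGLA Helper1.OC.hGLB Helper38.OC.hGLC I Z E).1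

open Classical in
theorem ceDim (Z : CentreData I) (D : I → Prop) (hD : FS Z D) :
    (∑ i, if D i then (Z.d i : ℤ) ^ 2 else 0) * (∑ j, if Ce Z D j then (Z.d j : ℤ) ^ 2 else 0) =
    (Z.n : ℤ) ^ 2 := Helper2.AL.hDIM Helper36.OC.hGLA Helper1.OC.hGLB I Z D hD

theorem stst (Z : CentreData I) (i : I) : Z.st (Z.st i) = i :=
  (Helper88.YF.hDUA I Z.toCentreRep).1 i
theorem sto (Z : CentreData I) : Z.st Z.o = Z.o := (Helper88.YF.hDUA I Z.toCentreRep).2.1
theorem dst (Z : CentreData I) (i : I) : Z.d (Z.st i) = Z.d i :=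
  (Helper88.YF.hDUA I Z.toCentreRep).2.2.1 i
theorem thst (Z : CentreData I) (i : I) : Z.th (Z.st i) = Z.th i :=
  (Helper88.YF.hDUA I Z.toCentreRep).2.2.2.1 i

theorem dC (Z : CentreData I) (i : I) : (Z.d i : ℂ) ≠ 0 := Nat.cast_ne_zero.2 (Z.d_pos i).ne'

theorem Nrot (Z : CentreData I) (i l v : I) : Z.N i l v = Z.N v (Z.st l) i :=
  Helper2.AL.N_rot Z.toCentreRep (stst Z) i l v

theorem Ncomm (Z : CentreData I) (i l v : I) : Z.N i l v = Z.N l i v := by
  have h1 := Helper48.OS.N_formula Z.toCentreRep (stst Z) i l v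
  have h2 := Helper48.OS.N_formula Z.toCentreRep (stst Z) l i v
  have h3 : (Z.N i l v : ℂ) = Z.N l i v := by
    rw [h1, h2]
    exact Finset.sum_congr rfl fun t _ => by ring
  exact_mod_cast h3

theorem Nleft (Z : CentreData I) (b V : I) : Z.N Z.o b V = if b = V then 1 else 0 := by
  have h := Helper48.OS.N_left Z.toCentreRep (stst Z) b V
  split_ifs at h ⊢ with h1
  · exact_mod_cast h
  · exact_mod_cast h

theorem Nright (Z : CentreData I) (a V : I) : Z.N a Z.o V = if a = V then 1 else 0 := by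
  rw [Ncomm, Nleft]

theorem thth (Z : CentreData I) (x : I) (h : Sf Z x x = (Z.d x : ℂ) * Z.d x) : Z.th x ^ 2 = 1 := by
  have A := gla Z
  have hx : Cchi Z x x = Z.d x := by
    have h1 := A.Sf_chi x x
    rw [h] at h1
    exact (mul_left_cancel₀ (dC Z x) h1).symm
  have h1 : Sf Z x (Z.st x) = (Z.d x : ℂ) * Z.d (Z.st x) := by
    rw [A.Sf_chi, A.chi_st, hx, Complex.conj_natCast, dst]
  have h2 : Z.N x (Z.st x) Z.o ≠ 0 := by
    rw [(glb Z).N_o x x, if_pos rfl]
    exact one_ne_zero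
  have h3 := (glc Z).bal x (Z.st x) Z.o h1 h2
  rw [Z.th_o, thst] at h3
  rw [pow_two, ← h3]

/-- A self-centralising set of invertible objects without bosons. -/
structure PE (Z : CentreData I) (E : I → Prop) : Prop where
  fs : FS Z E
  sym : ∀ x y, E x → E y → Sf Z x y = (Z.d x : ℂ) * Z.d y
  th1 : ∀ x, E x → Z.th x = 1 → x = Z.o

theorem PE.th2 {Z : CentreData I} {E : I → Prop} (h : PE Z E) (x : I) (hx : E x) :
    Z.th x ^ 2 = 1 := thth Z x (h.sym x x hx hx)

theorem PE.thm1 {Z : CentreData I} {E : I → Prop} (h : PE Z E) (x : I) (hx : E x)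
    (hxo : x ≠ Z.o) : Z.th x = -1 := by
  have h1 := h.th2 x hx
  have h2 : (Z.th x - 1) * (Z.th x + 1) = 0 := by linear_combination h1
  rcases mul_eq_zero.1 h2 with h3 | h3
  · exact absurd (h.th1 x hx (sub_eq_zero.1 h3)) hxo
  · exact eq_neg_of_add_eq_zero_left h3

theorem PE.d1 {Z : CentreData I} {E : I → Prop} (h : PE Z E) (x : I) (hx : E x) : Z.d x = 1 := by
  by_cases hxo : x = Z.o
  · rw [hxo]; exact Z.d_o
  have h1 := (glb Z).dim x (Z.st x)
  have h2 : ∑ l, Z.N x (Z.st x) l * Z.d l = 1 := by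
    rw [Finset.sum_eq_single Z.o]
    · rw [(glb Z).N_o x x, if_pos rfl, Z.d_o]
    · intro l _ hl
      by_contra hc
      have hN : Z.N x (Z.st x) l ≠ 0 := fun h0 => hc (by rw [h0, zero_mul])
      have hEl := h.fs.fus x (Z.st x) l hx (h.fs.st x hx) hN
      have h3 := (glc Z).bal x (Z.st x) l (h.sym x _ hx (h.fs.st x hx)) hN
      rw [thst, h.thm1 x hx hxo] at h3
      exact hl (h.th1 l hEl (by rw [h3]; norm_num))
    · intro hh
      exact absurd (Finset.mem_univ _) hh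
  rw [h2, dst] at h1
  exact Nat.eq_one_of_mul_eq_one_right h1

/-- From a fusion subset and its centraliser. -/
theorem pe_of (Z : CentreData I) (hno : ¬ ∃ D : I → Prop, TanSet Z D) (D : I → Prop)
    (hD : FS Z D) : PE Z (fun x => D x ∧ Ce Z D x) := by
  have h2 := ceFS Z D
  have hfs : FS Z (fun x => D x ∧ Ce Z D x) :=
    ⟨⟨hD.o, h2.o⟩, fun y hy => ⟨hD.st y hy.1, h2.st y hy.2⟩,
      fun a b c ha hb hN => ⟨hD.fus a b c ha.1 hb.1 hN, h2.fus a b c ha.2 hb.2 hN⟩⟩
  have hsym : ∀ x y, (D x ∧ Ce Z D x) → (D y ∧ Ce Z D y) →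
      Sf Z x y = (Z.d x : ℂ) * Z.d y := fun x y hx hy => hy.2 x hx.1
  refine ⟨hfs, hsym, ?_⟩
  intro x hx hth
  by_contra hxo
  apply hno
  refine ⟨fun y => (D y ∧ Ce Z D y) ∧ Z.th y = 1, ?_⟩
  constructor
  · exact ⟨hfs.o, Z.th_o⟩
  · exact ⟨x, ⟨hx, hth⟩, hxo⟩
  · intro y hy
    exact ⟨hfs.st y hy.1, by rw [thst]; exact hy.2⟩
  · intro a b c ha hb hN
    refine ⟨hfs.fus a b c ha.1 hb.1 hN, ?_⟩
    rw [(glc Z).bal a b c (hsym a b ha.1 hb.1) hN, ha.2, hb.2, mul_one]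
  · intro y hy
    exact hy.2
  · intro a b ha hb
    exact hsym a b ha.1 hb.1

/-- Products with an invertible object. -/
theorem inv_row (Z : CentreData I) (x : I) (hx : Z.d x = 1) (k : I) :
    ∃ v, ∀ W, Z.N k x W = if W = v then 1 else 0 := by
  apply Helper71.AL.spl_one
  rw [(glb Z).assoc k x k x]
  have h1 := (glb Z).dim x (Z.st x)
  rw [dst, hx] at h1
  have h2 : ∀ y, y ≠ Z.o → Z.N x (Z.st x) y = 0 := by
    intro y hy
    have h3 := Finset.add_sum_erase Finset.univ (fun l => Z.N x (Z.st x) l * Z.d l)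
      (Finset.mem_univ Z.o)
    have h4 : Z.N x (Z.st x) Z.o = 1 := by rw [(glb Z).N_o x x, if_pos rfl]
    simp only [h4, Z.d_o] at h3
    rw [← h1] at h3
    have h5 : ∑ l ∈ Finset.univ.erase Z.o, Z.N x (Z.st x) l * Z.d l = 0 := by omega
    have h6 := (Finset.sum_eq_zero_iff.1 h5) y (Finset.mem_erase.2 ⟨hy, Finset.mem_univ _⟩)
    rcases mul_eq_zero.1 h6 with h | h
    · exact h
    · exact absurd h (Z.d_pos y).ne'
  rw [Finset.sum_eq_single Z.o]
  · rw [(glb Z).N_o k k, (glb Z).N_o x x]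
    simp
  · intro y _ hy
    rw [h2 y hy, mul_zero]
  · intro hh
    exact absurd (Finset.mem_univ _) hh

theorem inv_sum (Z : CentreData I) (x : I) (hx : Z.d x = 1) (k : I) : ∑ W, Z.N k x W = 1 := by
  obtain ⟨v, hv⟩ := inv_row Z x hx k
  rw [Finset.sum_congr rfl fun W _ => hv W]
  simp

theorem inv_sum2 (Z : CentreData I) (x : I) (hx : Z.d x = 1) (k : I) :
    ∑ l, Z.N k (Z.st l) x = 1 := by
  have h1 : ∀ l, Z.N k (Z.st l) x = Z.N k (Z.st x) l := by
    intro l
    rw [Nrot Z k (Z.st l) x, stst, Ncomm Z x l k, Nrot Z l x k]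
  rw [Finset.sum_congr rfl fun l _ => h1 l]
  exact inv_sum Z (Z.st x) (by rw [dst]; exact hx) k

theorem inv_sum3 (Z : CentreData I) (x : I) (hx : Z.d x = 1) (k : I) :
    ∑ l, Z.N l (Z.st k) x = 1 := by
  have h1 : ∀ l, Z.N l (Z.st k) x = Z.N k x l := by
    intro l
    rw [Nrot Z l (Z.st k) x, stst, Ncomm Z x k l]
  rw [Finset.sum_congr rfl fun l _ => h1 l]
  exact inv_sum Z x hx k

end

end Pool.Agent.Helper89.MG
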