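import Pool.Agent.Helper89.MG.Inv

/-!
# MP_2b6189_al, any parity: the vector `rho (Lo b) e_o` on products of centralising objects (Muger with a fermion)
-/

set_option autoImplicit false

namespace Pool.Agent.Helper89.MG

open Matrix ComplexConjugate Pool.Agent.Helper94.YG
open Pool.Agent.Helper94.YF hiding StORB
open Pool.Agent.Helper89.OS Pool.Agent.Helper89.OC Pool.Agent.Helper79.AL

section

variable {I : Type} [Fintype I] [DecidableEq I]

open Classical in
/-- Sums of a character over a fusion subset. -/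
theorem ce_sum (Z : CentreData I) (D : I → Prop) (hD : FS Z D) (j : I) :
    (∑ i, if D i then (Z.d i : ℂ) * Cchi Z j i else 0) =
      if Ce Z D j then (∑ i, if D i then (Z.d i : ℂ) ^ 2 else 0) else 0 := by
  have A := gla Z
  have B := glb Z
  by_cases hC : Ce Z D j
  · rw [if_pos hC]
    refine Finset.sum_congr rfl fun i _ => ?_
    by_cases hi : D i
    · rw [if_pos hi, if_pos hi]
      have h := hC i hi
      rw [A.Sf_symm, A.Sf_chi] at h
      have h2 : Cchi Z j i = Z.d i := by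
        apply mul_left_cancel₀ (dC Z j)
        rw [h]; ring
      rw [h2]; ring
    · rw [if_neg hi, if_neg hi]
  · rw [if_neg hC]
    obtain ⟨l, hl, hne⟩ : ∃ l, D l ∧ Sf Z l j ≠ (Z.d l : ℂ) * Z.d j := by
      by_contra hcon
      push Not at hcon
      exact hC fun i hi => hcon i hi
    have hne2 : Cchi Z j l ≠ (Z.d l : ℂ) := by
      intro h
      apply hne
      rw [A.Sf_symm, A.Sf_chi, h]
      ring
    set T : ℂ := ∑ i, if D i then (Z.d i : ℂ) * Cchi Z j i else 0 with hT
    have hW : ∀ v, (∑ i, if D i then (Z.d i : ℂ) * (Z.N i l v : ℂ) else 0) =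
        if D v then (Z.d v : ℂ) * Z.d l else 0 := by
      intro v
      by_cases hv : D v
      · rw [if_pos hv]
        have h1 := B.dim v (Z.st l)
        rw [dst] at h1
        have h2 : (Z.d v : ℂ) * Z.d l = ∑ i, (Z.N v (Z.st l) i : ℂ) * (Z.d i : ℂ) := by
          exact_mod_cast h1
        rw [h2]
        refine Finset.sum_congr rfl fun i _ => ?_
        by_cases hi : D i
        · rw [if_pos hi, Nrot Z i l v]; ring
        · rw [if_neg hi]
          have h0 : Z.N v (Z.st l) i = 0 := by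
            by_contra hc
            exact hi (hD.fus v (Z.st l) i hv (hD.st l hl) hc)
          rw [h0]; simp
      · rw [if_neg hv]
        refine Finset.sum_eq_zero fun i _ => ?_
        by_cases hi : D i
        · rw [if_pos hi]
          have h0 : Z.N i l v = 0 := by
            by_contra hc
            exact hv (hD.fus i l v hi hl hc)
          rw [h0]; simp
        · rw [if_neg hi]
    have hkey : Cchi Z j l * T = (Z.d l : ℂ) * T := by
      have e1 : Cchi Z j l * T =
          ∑ i, ∑ v, (if D i then (Z.d i : ℂ) * (Z.N i l v : ℂ) else 0) * Cchi Z j v := by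
        rw [hT, Finset.mul_sum]
        refine Finset.sum_congr rfl fun i _ => ?_
        by_cases hi : D i
        · simp only [if_pos hi]
          calc Cchi Z j l * ((Z.d i : ℂ) * Cchi Z j i)
              = (Z.d i : ℂ) * (Cchi Z j i * Cchi Z j l) := by ring
            _ = _ := by
              rw [A.chi_mul, Finset.mul_sum]
              exact Finset.sum_congr rfl fun v _ => by ring
        · simp only [if_neg hi]
          simp
      rw [e1, Finset.sum_comm, hT, Finset.mul_sum]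
      refine Finset.sum_congr rfl fun v _ => ?_
      rw [← Finset.sum_mul, hW v]
      by_cases hv : D v
      · rw [if_pos hv, if_pos hv]; ring
      · rw [if_neg hv, if_neg hv]; ring
    have : (Cchi Z j l - (Z.d l : ℂ)) * T = 0 := by rw [sub_mul, hkey, sub_self]
    rcases mul_eq_zero.1 this with h | h
    · exact absurd (sub_eq_zero.1 h) hne2
    · exact h

theorem twpow (Z : CentreData I) (z : ZMod Z.L) (i : I) (k : ℕ) :
    Z.tw z i ^ k = Z.tw ((k : ZMod Z.L) * z) i := by
  obtain ⟨f1, f2, f3, f4, -⟩ := Helper36.YF.hFUS Helper88.YF.hDUA I Z.toCentreRep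
  induction k with
  | zero => simp [f4]
  | succ k ih =>
    rw [pow_succ, ih, ← f3]
    congr 1
    push_cast
    ring

/-- `rho (Lo b) V o ≠ 0` implies that the `p'`-part of the twist is trivial. -/
theorem lo_supp (Z : CentreData I) (b : ZMod Z.L) (hb : b * b = b) (V : I)
    (h : Z.rho (Lo b) V Z.o ≠ 0) : Z.tw (1 - b) V = 1 := by
  obtain ⟨f1, f2, f3, f4, f5, f6, -⟩ := Helper36.YF.hFUS Helper88.YF.hDUA I Z.toCentreRep
  have h0 : (U (1 - b) * Lo b : SL Z.L) = Lo b * U (1 - b) := by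
    apply Subtype.ext
    rw [Matrix.SpecialLinearGroup.coe_mul, Matrix.SpecialLinearGroup.coe_mul]
    ext i j
    have hb1 : (1 - b) * b = 0 := by rw [sub_mul, one_mul, hb, sub_self]
    have hb2 : b * (1 - b) = 0 := by rw [mul_sub, mul_one, hb, sub_self]
    fin_cases i <;> fin_cases j <;>
      simp [U, Lo, Matrix.mul_apply, Fin.sum_univ_two, hb1, hb2]
  have h1 := congrArg Z.rho h0
  rw [map_mul, map_mul, f1] at h1
  have h2 := congrFun (congrFun h1 V) Z.o
  rw [Matrix.diagonal_mul, Matrix.mul_diagonal, f6, mul_one] at h2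
  exact mul_right_cancel₀ h (by rw [h2, one_mul])

/-- For an idempotent `b` whose twists have odd order: `tw (1 - b) x ≠ 1` for `th x = - 1`. -/
theorem tw_ferm (Z : CentreData I) (b : ZMod Z.L) (P : ℕ) (hP : Odd P)
    (hann : ((P : ℕ) : ZMod Z.L) * b = 0) (x : I) (hx : Z.th x = -1) :
    Z.tw (1 - b) x ≠ 1 := by
  obtain ⟨f1, f2, f3, f4, f5, f6, -⟩ := Helper36.YF.hFUS Helper88.YF.hDUA I Z.toCentreRep
  have h1 : Z.tw b x = 1 := by
    have h2 : Z.tw b x ^ P = 1 := by rw [twpow, hann, f4]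
    have h3 : Z.tw b x ^ 2 = 1 := by
      have h4 : Z.tw b x = Z.th x ^ b.val := rfl
      rw [h4, hx, ← pow_mul, mul_comm, pow_mul]
      simp
    obtain ⟨c, hc⟩ := hP
    rw [hc, pow_succ, pow_mul, h3, one_pow, one_mul] at h2
    exact h2
  intro h
  have h2 : Z.tw ((1 - b) + b) x = Z.th x := by rw [sub_add_cancel, f5]
  rw [f3, h, h1, hx] at h2
  norm_num at h2

open Classical in
/-- **Products of centralising objects.** -/
theorem mgf (Z : CentreData I) (b : ZMod Z.L) (hb : b * b = b) (P : ℕ) (hP : Odd P)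
    (hann : ((P : ℕ) : ZMod Z.L) * b = 0) (hno : ¬ ∃ D : I → Prop, TanSet Z D) (i j : I)
    (hij : Sf Z i j = (Z.d i : ℂ) * Z.d j) (hi : Z.rho (Lo b) i Z.o ≠ 0)
    (hj : Z.rho (Lo b) j Z.o ≠ 0) (ho : Z.rho (Lo b) Z.o Z.o ≠ 0)
    (hm : Z.rho (Lo b) i j ≠ 0) :
    Z.rho (Lo b) Z.o Z.o * Z.rho (Lo b) i j = Z.rho (Lo b) i Z.o * Z.rho (Lo b) j Z.o := by
  obtain ⟨f1, f2, f3, f4, f5, f6, f7, f8, f9, f10, f11⟩ :=
    Helper36.YF.hFUS Helper88.YF.hDUA I Z.toCentreRep
  have A := gla Z
  have B := glb Z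
  have C := glc Z
  set lam : I → ℂ := fun V => Z.rho (Lo b) V Z.o with hlam
  have hn : (Z.n : ℂ) ≠ 0 := by exact_mod_cast Z.n_pos.ne'
  have hn2 : (Z.n : ℂ) ^ 2 ≠ 0 := pow_ne_zero 2 hn
  -- the subsets
  set D1 : I → Prop := Ce Z (fun x => x = j) with hD1
  set D2 : I → Prop := Ce Z D1 with hD2
  have fs1 : FS Z D1 := ceFS Z _
  have fs2 : FS Z D2 := ceFS Z _
  obtain ⟨E, hE⟩ : ∃ E : I → Prop, ∀ x, E x ↔ (D1 x ∧ D2 x) :=
    ⟨fun x => D1 x ∧ D2 x, fun x => Iff.rfl⟩
  have pe : PE Z E := by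
    have h1 := pe_of Z hno D1 fs1
    have h2 : E = fun x => D1 x ∧ Ce Z D1 x := funext fun x => propext (hE x)
    rw [h2]
    exact h1
  set H : I → Prop := Ce Z E with hH
  have fsH : FS Z H := ceFS Z _
  have hiD : D1 i := by
    intro x hx
    rw [hx, A.Sf_symm, hij]
    ring
  have hjD : D2 j := by
    intro x hx
    have h := hx j rfl
    rw [A.Sf_symm, h]
    ring
  have hcen : ∀ k l, D1 k → D2 l → Sf Z k l = (Z.d k : ℂ) * Z.d l := fun k l hk hl => hl k hk
  have h1H : ∀ k, D1 k → H k := by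
    intro k hk x hx
    rw [A.Sf_symm, hcen k x hk ((hE x).1 hx).2]
    ring
  have h2H : ∀ l, D2 l → H l := fun l hl x hx => hcen x l ((hE x).1 hx).1 hl
  -- the free action
  have free : ∀ x k, E x → H k → Z.N k (Z.st k) x ≠ 0 → x = Z.o := by
    intro x k hx hk hN
    rw [Nrot, stst] at hN
    have h1 := C.bal x k k (hk x hx) hN
    apply pe.th1 x hx
    have h2 : Z.th k ≠ 0 := by
      intro h0
      have := f2 k
      rw [h0, zero_pow Z.L_pos.ne'] at this
      exact zero_ne_one this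
    exact mul_right_cancel₀ h2 (by rw [← h1, one_mul])
  -- simple products
  have ex : ∀ k l, D1 k → D2 l → ∃ v, ∀ W, Z.N k l W = if W = v then 1 else 0 := by
    intro k l hk hl
    apply Helper71.AL.spl_one
    rw [B.assoc k l k l, Finset.sum_eq_single Z.o]
    · rw [B.N_o, B.N_o]; simp
    · intro x _ hx
      by_contra hc
      have ha : Z.N k (Z.st k) x ≠ 0 := fun h => hc (by rw [h, zero_mul])
      have hb' : Z.N l (Z.st l) x ≠ 0 := fun h => hc (by rw [h, mul_zero])
      exact hx (free x k ((hE x).2 ⟨fs1.fus _ _ _ hk (fs1.st _ hk) ha,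
        fs2.fus _ _ _ hl (fs2.st _ hl) hb'⟩) (h1H k hk) ha)
    · intro h
      exact absurd (Finset.mem_univ _) h
  -- the number of elements of `E`
  set ε : ℕ := (Finset.univ.filter fun x => E x).card with hε
  have hεpos : 0 < ε := Finset.card_pos.2 ⟨Z.o, by simp [pe.fs.o]⟩
  have hεC : (ε : ℂ) ≠ 0 := Nat.cast_ne_zero.2 hεpos.ne'
  have hEsum : (∑ x, if E x then (Z.d x : ℤ) ^ 2 else 0) = (ε : ℤ) := by
    rw [← Finset.sum_filter, hε, Finset.card_eq_sum_ones]
    push_cast
    refine Finset.sum_congr rfl fun x hx => ?_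
    rw [pe.d1 x (Finset.mem_filter.1 hx).2]
    simp
  have hEsumC : (∑ x, if E x then (Z.d x : ℂ) ^ 2 else 0) = (ε : ℂ) := by
    exact_mod_cast hEsum
  -- the multiplicities
  set F1 : Finset I := Finset.univ.filter D1 with hF1
  set F2 : Finset I := Finset.univ.filter D2 with hF2
  have m1 : ∀ k, k ∈ F1 ↔ D1 k := fun k => by simp [hF1]
  have m2 : ∀ k, k ∈ F2 ↔ D2 k := fun k => by simp [hF2]
  set c : I → ℕ := fun V => ∑ k ∈ F1, ∑ l ∈ F2, Z.N k l V with hc
  have cH : ∀ V, c V ≠ 0 → H V := by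
    intro V hV
    obtain ⟨k, hk, hk2⟩ := Finset.exists_ne_zero_of_sum_ne_zero hV
    obtain ⟨l, hl, hl2⟩ := Finset.exists_ne_zero_of_sum_ne_zero hk2
    exact fsH.fus k l V (h1H k ((m1 k).1 hk)) (h2H l ((m2 l).1 hl)) hl2
  have cle : ∀ V, c V ≤ ε := by
    intro V
    by_cases hV : c V = 0
    · rw [hV]; exact Nat.zero_le _
    obtain ⟨k0, hk0, hk2⟩ := Finset.exists_ne_zero_of_sum_ne_zero hV
    obtain ⟨l0, hl0, hl2⟩ := Finset.exists_ne_zero_of_sum_ne_zero hk2
    have hN0 : 1 ≤ Z.N k0 l0 V := Nat.one_le_iff_ne_zero.2 hl2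
    calc c V ≤ ∑ k ∈ F1, ∑ l ∈ F2, ∑ W, Z.N k0 l0 W * Z.N k l W := by
          refine Finset.sum_le_sum fun k _ => Finset.sum_le_sum fun l _ => ?_
          have h1 : Z.N k0 l0 V * Z.N k l V ≤ ∑ W, Z.N k0 l0 W * Z.N k l W :=
            Finset.single_le_sum (f := fun W => Z.N k0 l0 W * Z.N k l W)
              (fun _ _ => Nat.zero_le _) (Finset.mem_univ V)
          exact le_trans (Nat.le_mul_of_pos_left _ hN0) h1
      _ = ∑ k ∈ F1, ∑ l ∈ F2, ∑ x ∈ Finset.univ.filter (fun x => E x),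
            Z.N k0 (Z.st k) x * Z.N l (Z.st l0) x := by
          refine Finset.sum_congr rfl fun k hk => Finset.sum_congr rfl fun l hl => ?_
          rw [B.assoc k0 l0 k l]
          symm
          refine Finset.sum_subset (Finset.subset_univ _) fun x _ hx => ?_
          by_contra hcc
          have ha : Z.N k0 (Z.st k) x ≠ 0 := fun h => hcc (by rw [h, zero_mul])
          have hb' : Z.N l (Z.st l0) x ≠ 0 := fun h => hcc (by rw [h, mul_zero])
          apply hx
          rw [Finset.mem_filter]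
          exact ⟨Finset.mem_univ _, (hE x).2
            ⟨fs1.fus _ _ _ ((m1 k0).1 hk0) (fs1.st _ ((m1 k).1 hk)) ha,
            fs2.fus _ _ _ ((m2 l).1 hl) (fs2.st _ ((m2 l0).1 hl0)) hb'⟩⟩
      _ = ∑ x ∈ Finset.univ.filter (fun x => E x), (∑ k ∈ F1, Z.N k0 (Z.st k) x) *
            ∑ l ∈ F2, Z.N l (Z.st l0) x := by
          rw [Finset.sum_congr rfl fun k _ => Finset.sum_comm, Finset.sum_comm]
          refine Finset.sum_congr rfl fun x _ => ?_
          rw [Finset.sum_mul_sum]
      _ ≤ ∑ x ∈ Finset.univ.filter (fun x => E x), 1 := by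
          refine Finset.sum_le_sum fun x hx => ?_
          have hx1 := pe.d1 x (Finset.mem_filter.1 hx).2
          have ha : ∑ k ∈ F1, Z.N k0 (Z.st k) x ≤ 1 := by
            rw [← inv_sum2 Z x hx1 k0]
            exact Finset.sum_le_sum_of_subset (Finset.subset_univ _)
          have hb' : ∑ l ∈ F2, Z.N l (Z.st l0) x ≤ 1 := by
            rw [← inv_sum3 Z x hx1 l0]
            exact Finset.sum_le_sum_of_subset (Finset.subset_univ _)
          calc _ ≤ 1 * 1 := Nat.mul_le_mul ha hb'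
            _ = 1 := one_mul 1
      _ = ε := by rw [hε, Finset.card_eq_sum_ones]
  -- the total
  have ctot : ∑ V, (c V : ℤ) * (Z.d V : ℤ) ^ 2 = (Z.n : ℤ) ^ 2 := by
    have h1 := ceDim Z D1 fs1
    rw [← Finset.sum_filter, ← Finset.sum_filter, Finset.sum_mul_sum] at h1
    rw [← h1]
    have h2 : ∀ V, (c V : ℤ) * (Z.d V : ℤ) ^ 2 =
        ∑ k ∈ F1, ∑ l ∈ F2, (Z.N k l V : ℤ) * (Z.d V : ℤ) ^ 2 := by
      intro V
      rw [hc]
      push_cast
      rw [Finset.sum_mul]
      exact Finset.sum_congr rfl fun k _ => by rw [Finset.sum_mul]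
    rw [Finset.sum_congr rfl fun V _ => h2 V, Finset.sum_comm]
    refine Finset.sum_congr rfl fun k hk => ?_
    rw [Finset.sum_comm]
    refine Finset.sum_congr rfl fun l hl => ?_
    obtain ⟨v, hv⟩ := ex k l ((m1 k).1 hk) ((m2 l).1 hl)
    have h3 := B.dim k l
    rw [Finset.sum_congr rfl fun W _ => by rw [hv W]] at h3 ⊢
    simp only [ite_mul, one_mul, zero_mul, Finset.sum_ite_eq', Finset.mem_univ, if_true,
      Nat.cast_ite, Nat.cast_one, Nat.cast_zero] at h3 ⊢
    rw [← h3]
    push_cast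
    ring
  have hdH : (ε : ℤ) * (∑ V, if H V then (Z.d V : ℤ) ^ 2 else 0) = (Z.n : ℤ) ^ 2 := by
    have h1 := ceDim Z E pe.fs
    rw [hEsum] at h1
    exact h1
  have cH2 : ∀ V, H V → c V = ε := by
    have h1 : ∑ V, (if H V then ((ε : ℤ) - c V) * (Z.d V : ℤ) ^ 2 else 0) = 0 := by
      have h2 : ∀ V, (if H V then ((ε : ℤ) - c V) * (Z.d V : ℤ) ^ 2 else 0) =
          (ε : ℤ) * (if H V then (Z.d V : ℤ) ^ 2 else 0) - (c V : ℤ) * (Z.d V : ℤ) ^ 2 := by
        intro V
        by_cases hV : H V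
        · rw [if_pos hV, if_pos hV]; ring
        · rw [if_neg hV, if_neg hV]
          have : c V = 0 := by
            by_contra hh
            exact hV (cH V hh)
          rw [this]; simp
      rw [Finset.sum_congr rfl fun V _ => h2 V, Finset.sum_sub_distrib, ← Finset.mul_sum, hdH,
        ctot, sub_self]
    intro V hV
    have h3 := (Finset.sum_eq_zero_iff_of_nonneg (fun W _ => by
      by_cases hW : H W
      · rw [if_pos hW]
        have := cle W
        have h4 : (0 : ℤ) ≤ (ε : ℤ) - c W := by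
          have : (c W : ℤ) ≤ ε := by exact_mod_cast this
          linarith
        positivity
      · rw [if_neg hW])).1 h1 V (Finset.mem_univ V)
    rw [if_pos hV] at h3
    have h5 : (Z.d V : ℤ) ^ 2 ≠ 0 := by
      have := Z.d_pos V
      positivity
    rcases mul_eq_zero.1 h3 with h6 | h6
    · have : (c V : ℤ) = ε := by linarith
      exact_mod_cast this
    · exact absurd h6 h5
  -- the factorisation
  set G : I → I → ℂ := fun u v =>
    ∑ V, if H V then (Z.d V : ℂ) ^ 2 * (Cchi Z V u * Cchi Z V v) * Z.tw (-b) V else 0 with hG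
  set P1 : I → ℂ := fun u => ∑ k ∈ F1, (Z.d k : ℂ) ^ 2 * Cchi Z k u * Z.tw (-b) k with hP1
  set P2 : I → ℂ := fun u => ∑ k ∈ F2, (Z.d k : ℂ) ^ 2 * Cchi Z k u * Z.tw (-b) k with hP2
  have hchi1 : ∀ u l, D1 u → D2 l → Cchi Z u l = Z.d l := by
    intro u l hu hl
    have h := hcen u l hu hl
    rw [A.Sf_chi] at h
    exact mul_left_cancel₀ (dC Z u) h
  have hchi2 : ∀ u l, D1 u → D2 l → Cchi Z l u = Z.d u := by
    intro u l hu hl
    have h := hcen u l hu hl
    rw [A.Sf_symm, A.Sf_chi, mul_comm (Z.d u : ℂ)] at h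
    exact mul_left_cancel₀ (dC Z l) h
  have fac : ∀ u v, D1 u → D2 v → P1 u * P2 v = (ε : ℂ) * G u v := by
    intro u v hu hv
    have h1 : (ε : ℂ) * G u v =
        ∑ V, (c V : ℂ) * ((Z.d V : ℂ) ^ 2 * (Cchi Z V u * Cchi Z V v) * Z.tw (-b) V) := by
      rw [hG, Finset.mul_sum]
      refine Finset.sum_congr rfl fun V _ => ?_
      by_cases hV : H V
      · rw [if_pos hV, cH2 V hV]
      · rw [if_neg hV]
        have : c V = 0 := by
          by_contra hh
          exact hV (cH V hh)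
        rw [this]; simp
    have h2 : ∀ V, (c V : ℂ) * ((Z.d V : ℂ) ^ 2 * (Cchi Z V u * Cchi Z V v) * Z.tw (-b) V) =
        ∑ k ∈ F1, ∑ l ∈ F2, (Z.N k l V : ℂ) *
          ((Z.d V : ℂ) ^ 2 * (Cchi Z V u * Cchi Z V v) * Z.tw (-b) V) := by
      intro V
      rw [hc]
      push_cast
      rw [Finset.sum_mul]
      exact Finset.sum_congr rfl fun k _ => by rw [Finset.sum_mul]
    rw [h1, Finset.sum_congr rfl fun V _ => h2 V, Finset.sum_comm, hP1, hP2]
    simp only
    rw [Finset.sum_mul_sum]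
    refine Finset.sum_congr rfl fun k hk => ?_
    rw [Finset.sum_comm]
    refine Finset.sum_congr rfl fun l hl => ?_
    obtain ⟨w, hw⟩ := ex k l ((m1 k).1 hk) ((m2 l).1 hl)
    have hk1 := (m1 k).1 hk
    have hl1 := (m2 l).1 hl
    have hdw : Z.d k * Z.d l = Z.d w := by
      rw [B.dim k l, Finset.sum_congr rfl fun W _ => by rw [hw W]]
      simp
    have hdwC : (Z.d w : ℂ) = (Z.d k : ℂ) * Z.d l := by rw [← hdw]; push_cast; ring
    have hNw : Z.N k l w ≠ 0 := by rw [hw w, if_pos rfl]; exact one_ne_zero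
    have htw : Z.tw (-b) w = Z.tw (-b) k * Z.tw (-b) l := by
      have h3 := C.bal k l w (hcen k l hk1 hl1) hNw
      change Z.th w ^ (-b).val = Z.th k ^ (-b).val * Z.th l ^ (-b).val
      rw [h3, mul_pow]
    have hch : ∀ x, Cchi Z x w = Cchi Z x k * Cchi Z x l := by
      intro x
      rw [A.chi_mul x k l, Finset.sum_congr rfl fun W _ => by rw [hw W]]
      simp
    have e1 : Cchi Z w u = Cchi Z k u := by
      have h3 : (Z.d w : ℂ) * Cchi Z w u = (Z.d w : ℂ) * Cchi Z k u := by
        rw [← A.Sf_chi, A.Sf_symm, A.Sf_chi, hch u, hchi1 u l hu hl1, hdwC]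
        have h4 : (Z.d u : ℂ) * Cchi Z u k = (Z.d k : ℂ) * Cchi Z k u := by
          rw [← A.Sf_chi, ← A.Sf_chi, A.Sf_symm]
        linear_combination (Z.d l : ℂ) * h4
      exact mul_left_cancel₀ (dC Z w) h3
    have e2 : Cchi Z w v = Cchi Z l v := by
      have h3 : (Z.d w : ℂ) * Cchi Z w v = (Z.d w : ℂ) * Cchi Z l v := by
        rw [← A.Sf_chi, A.Sf_symm, A.Sf_chi, hch v, hchi2 k v hk1 hv, hdwC]
        have h4 : (Z.d v : ℂ) * Cchi Z v l = (Z.d l : ℂ) * Cchi Z l v := by
          rw [← A.Sf_chi, ← A.Sf_chi, A.Sf_symm]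
        linear_combination (Z.d k : ℂ) * h4
      exact mul_left_cancel₀ (dC Z w) h3
    rw [Finset.sum_eq_single w]
    · rw [hw w, if_pos rfl, e1, e2, htw, hdwC]
      push_cast
      ring
    · intro W _ hW
      rw [hw W, if_neg hW]
      simp
    · intro h
      exact absurd (Finset.mem_univ _) h
  -- `G` in terms of `lam`
  have hGl : ∀ u v, (ε : ℂ) * G u v = (Z.n : ℂ) ^ 2 *
      ∑ w, (Z.N u v w : ℂ) * ∑ x, if E x then ∑ y, (Z.N x w y : ℂ) * lam y else 0 := by
    intro u v
    have h1 : ∀ V, (ε : ℂ) * (if H V then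
        (Z.d V : ℂ) ^ 2 * (Cchi Z V u * Cchi Z V v) * Z.tw (-b) V else 0) =
        ∑ w, (Z.N u v w : ℂ) * ∑ x, if E x then ∑ y, (Z.N x w y : ℂ) *
          ((Z.d V : ℂ) ^ 2 * Cchi Z V y * Z.tw (-b) V) else 0 := by
      intro V
      have h2 := ce_sum Z E pe.fs V
      rw [hEsumC] at h2
      have h3 : (ε : ℂ) * (if H V then
          (Z.d V : ℂ) ^ 2 * (Cchi Z V u * Cchi Z V v) * Z.tw (-b) V else 0) =
          (∑ x, if E x then (Z.d x : ℂ) * Cchi Z V x else 0) *
          ((Z.d V : ℂ) ^ 2 * (Cchi Z V u * Cchi Z V v) * Z.tw (-b) V) := by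
        rw [h2]
        by_cases hV : H V
        · rw [if_pos hV, if_pos hV]
        · rw [if_neg hV, if_neg hV]; ring
      have h7 : (Z.d V : ℂ) ^ 2 * (∑ w, (Z.N u v w : ℂ) * Cchi Z V w) * Z.tw (-b) V =
          ∑ w, (Z.N u v w : ℂ) * ((Z.d V : ℂ) ^ 2 * Cchi Z V w * Z.tw (-b) V) := by
        rw [Finset.mul_sum, Finset.sum_mul]
        exact Finset.sum_congr rfl fun w _ => by ring
      rw [h3, A.chi_mul V u v, h7, Finset.mul_sum]
      refine Finset.sum_congr rfl fun w _ => ?_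
      rw [mul_left_comm]
      congr 1
      rw [Finset.sum_mul]
      refine Finset.sum_congr rfl fun x _ => ?_
      by_cases hx : E x
      · rw [if_pos hx, if_pos hx, pe.d1 x hx]
        have h4 : ∑ y, (Z.N x w y : ℂ) * ((Z.d V : ℂ) ^ 2 * Cchi Z V y * Z.tw (-b) V) =
            (∑ y, (Z.N x w y : ℂ) * Cchi Z V y) * ((Z.d V : ℂ) ^ 2 * Z.tw (-b) V) := by
          rw [Finset.sum_mul]
          exact Finset.sum_congr rfl fun y _ => by ring
        rw [h4, ← A.chi_mul V x w]
        push_cast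
        ring
      · rw [if_neg hx, if_neg hx]
        ring
    rw [hG, Finset.mul_sum, Finset.sum_congr rfl fun V _ => h1 V, Finset.sum_comm,
      Finset.mul_sum]
    refine Finset.sum_congr rfl fun w _ => ?_
    rw [← Finset.mul_sum]
    rw [Finset.sum_comm]
    have h5 : ∀ x, (∑ V, if E x then ∑ y, (Z.N x w y : ℂ) *
        ((Z.d V : ℂ) ^ 2 * Cchi Z V y * Z.tw (-b) V) else 0) =
        (Z.n : ℂ) ^ 2 * (if E x then ∑ y, (Z.N x w y : ℂ) * lam y else 0) := by
      intro x
      by_cases hx : E x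
      · simp only [if_pos hx]
        rw [Finset.sum_comm, Finset.mul_sum]
        refine Finset.sum_congr rfl fun y _ => ?_
        rw [← Finset.mul_sum, ← lo_o Z A b y]
        ring
      · simp only [if_neg hx]
        simp
    rw [Finset.sum_congr rfl fun x _ => h5 x, ← Finset.mul_sum]
    ring
  -- the inner sum
  have hR : ∀ w, H w → lam w ≠ 0 →
      (∑ x, if E x then ∑ y, (Z.N x w y : ℂ) * lam y else 0) = lam w := by
    intro w hw hlw
    rw [Finset.sum_eq_single Z.o]
    · rw [if_pos pe.fs.o, Finset.sum_eq_single w]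
      · rw [Nleft, if_pos rfl]; simp
      · intro y _ hy
        rw [Nleft, if_neg (Ne.symm hy)]; simp
      · intro h
        exact absurd (Finset.mem_univ _) h
    · intro x _ hx
      by_cases hxE : E x
      · rw [if_pos hxE]
        refine Finset.sum_eq_zero fun y _ => ?_
        by_cases hN : Z.N x w y = 0
        · rw [hN]; simp
        have h1 := C.bal x w y (hw x hxE) hN
        have h2 : Z.tw (1 - b) y = Z.tw (1 - b) x * Z.tw (1 - b) w := by
          change Z.th y ^ (1 - b).val = Z.th x ^ (1 - b).val * Z.th w ^ (1 - b).val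
          rw [h1, mul_pow]
        rw [lo_supp Z b hb w hlw, mul_one] at h2
        have h3 : lam y = 0 := by
          by_contra hly
          exact tw_ferm Z b P hP hann x (pe.thm1 x hxE hx) (by
            rw [← h2]; exact lo_supp Z b hb y hly)
        rw [h3, mul_zero]
      · rw [if_neg hxE]
    · intro h
      exact absurd (Finset.mem_univ _) h
  -- conclusion
  obtain ⟨w, hw⟩ := ex i (Z.st j) hiD (fs2.st j hjD)
  have hNw : Z.N i (Z.st j) w ≠ 0 := by rw [hw w, if_pos rfl]; exact one_ne_zero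
  have hwH : H w := fsH.fus i (Z.st j) w (h1H i hiD) (h2H _ (fs2.st j hjD)) hNw
  have hlw : Z.rho (Lo b) i j = lam w := by
    rw [f8 b i j, Finset.sum_eq_single w]
    · rw [hw w, if_pos rfl, Nat.cast_one, one_mul]
    · intro y _ hy
      rw [hw y, if_neg hy]; simp
    · intro h
      exact absurd (Finset.mem_univ _) h
  have hlj : lam (Z.st j) = lam j := by
    have h := (Helper88.YF.hDUA I Z.toCentreRep).2.2.2.2.2 (Lo b) j Z.o
    rw [sto] at h
    exact h
  have g1 : (ε : ℂ) * G i (Z.st j) = (Z.n : ℂ) ^ 2 * lam w := by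
    rw [hGl, Finset.sum_eq_single w]
    · rw [hw w, if_pos rfl, hR w hwH (by rw [← hlw]; exact hm)]
      simp
    · intro y _ hy
      rw [hw y, if_neg hy]; simp
    · intro h
      exact absurd (Finset.mem_univ _) h
  have g2 : (ε : ℂ) * G Z.o Z.o = (Z.n : ℂ) ^ 2 * lam Z.o := by
    rw [hGl, Finset.sum_eq_single Z.o]
    · rw [Nleft, if_pos rfl, hR Z.o fsH.o ho]
      simp
    · intro y _ hy
      rw [Nleft, if_neg (Ne.symm hy)]; simp
    · intro h
      exact absurd (Finset.mem_univ _) h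
  have g3 : (ε : ℂ) * G i Z.o = (Z.n : ℂ) ^ 2 * lam i := by
    rw [hGl, Finset.sum_eq_single i]
    · rw [Nright, if_pos rfl, hR i (h1H i hiD) hi]
      simp
    · intro y _ hy
      rw [Nright, if_neg (Ne.symm hy)]; simp
    · intro h
      exact absurd (Finset.mem_univ _) h
  have g4 : (ε : ℂ) * G Z.o (Z.st j) = (Z.n : ℂ) ^ 2 * lam (Z.st j) := by
    rw [hGl, Finset.sum_eq_single (Z.st j)]
    · rw [Nleft, if_pos rfl, hR (Z.st j) (h2H _ (fs2.st j hjD)) (by rw [hlj]; exact hj)]
      simp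
    · intro y _ hy
      rw [Nleft, if_neg (Ne.symm hy)]; simp
    · intro h
      exact absurd (Finset.mem_univ _) h
  have k1 := fac i (Z.st j) hiD (fs2.st j hjD)
  have k2 := fac Z.o Z.o fs1.o fs2.o
  have k3 := fac i Z.o hiD fs2.o
  have k4 := fac Z.o (Z.st j) fs1.o (fs2.st j hjD)
  rw [g1] at k1
  rw [g2] at k2
  rw [g3] at k3
  rw [g4, hlj] at k4
  rw [hlw]
  change lam Z.o * lam w = lam i * lam j
  apply mul_left_cancel₀ hn2
  apply mul_left_cancel₀ hn2
  calc (Z.n : ℂ) ^ 2 * ((Z.n : ℂ) ^ 2 * (lam Z.o * lam w)) =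
      ((Z.n : ℂ) ^ 2 * lam w) * ((Z.n : ℂ) ^ 2 * lam Z.o) := by ring
    _ = ((Z.n : ℂ) ^ 2 * lam i) * ((Z.n : ℂ) ^ 2 * lam j) := by
        rw [← k1, ← k2, ← k3, ← k4]; ring
    _ = _ := by ring

end

end Pool.Agent.Helper89.MG
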